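import Mathlib

set_option autoImplicit false

namespace Pool.Agent.Work.MP_2efb47_nt.CollatzEquiv

/-- The modified map `V` of the problem. -/
def V (n : ℕ) : ℕ :=
  if n % 2 = 0 then n / 2 else if n % 4 = 1 then (n + 1) / 2 else (3 * n + 1) / 2

/-- The usual `3x+1` map `T`. -/
def T (n : ℕ) : ℕ :=
  if n % 2 = 0 then n / 2 else (3 * n + 1) / 2

theorem V_odd (m : ℕ) : V (2 * m + 1) = 2 * T m + 1 := by
  unfold V T
  split_ifs <;> omega

theorem V_iter_odd (j m : ℕ) : V^[j] (2 * m + 1) = 2 * T^[j] m + 1 := by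
  induction j generalizing m with
  | zero => simp
  | succ j ih => rw [Function.iterate_succ_apply, Function.iterate_succ_apply, V_odd, ih]

theorem exists_odd (n : ℕ) (hn : 0 < n) : ∃ i m : ℕ, V^[i] n = 2 * m + 1 := by
  induction n using Nat.strong_induction_on with
  | _ n ih =>
    by_cases h : n % 2 = 0
    · obtain ⟨i, m, him⟩ := ih (n / 2) (by omega) (by omega)
      refine ⟨i + 1, m, ?_⟩
      rw [Function.iterate_succ_apply]
      have : V n = n / 2 := by unfold V; rw [if_pos h]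
      rw [this, him]
    · exact ⟨0, n / 2, by simp; omega⟩

theorem result :
    (∀ n : ℕ, 0 < n → ∃ j p : ℕ, 1 ≤ p ∧ V^[j + p] n = V^[j] n) ↔
    (∀ m : ℕ, 0 < m → ∃ j p : ℕ, 1 ≤ p ∧ T^[j + p] m = T^[j] m) := by
  constructor
  · intro h m _
    obtain ⟨j, p, hp, hj⟩ := h (2 * m + 1) (by omega)
    rw [V_iter_odd, V_iter_odd] at hj
    exact ⟨j, p, hp, by omega⟩
  · intro h n hn
    obtain ⟨i, m, him⟩ := exists_odd n hn
    have key : ∃ j p : ℕ, 1 ≤ p ∧ T^[j + p] m = T^[j] m := by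
      rcases Nat.eq_zero_or_pos m with rfl | hm
      · exact ⟨0, 1, le_rfl, by simp [T]⟩
      · exact h m hm
    obtain ⟨j, p, hp, hj⟩ := key
    refine ⟨j + i, p, hp, ?_⟩
    have e1 : j + i + p = (j + p) + i := by omega
    rw [e1, Function.iterate_add_apply V (j + p) i, Function.iterate_add_apply V j i, him,
      V_iter_odd, V_iter_odd, hj]

end Pool.Agent.Work.MP_2efb47_nt.CollatzEquiv
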